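import Mathlib
import Pool.Agent.Y877.SxD
import Pool.Agent.U918.SM.Cheb

/-! Quadratic polynomials: the arithmetic weight and the sieve by medium primes, both sides. -/

set_option autoImplicit false

namespace Pool.Agent.U918.SG
open Finset Pool.Agent.H373R2.T7 Pool.Agent.Y877.SX Pool.Agent.U918.SM

/-- the weight of a pair -/
noncomputable def FG (y z a b s t : ℕ) : ℝ := fd y z (Nat.dist s t) * fd y z (a * (s + t) + b)

lemma fd_small (y z b : ℕ) (hb : 1 ≤ b) (hby : b ≤ y) : fd y z b = 1 := by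
  unfold fd
  rw [filter_false_of_mem, prod_empty]
  intro p hp hd
  have h1 := (mem_mid.1 hp).1
  have h2 := Nat.le_of_dvd (by omega) hd
  omega

lemma FG_moment (y z a b k N : ℕ) (hab : 1 ≤ a + b) (hby : b ≤ y) (hy : 1 ≤ y) (hk : 6 * k ≤ y) (S : Finset ℕ)
    (hS : S ⊆ Icc 1 N) (s : ℕ) (hs : s ∈ S) :
    ∑ t ∈ S.erase s, FG y z a b s t ^ k ≤ (3 + 2 * a + b) * N := by
  have h0 : ∑ t ∈ S.erase s, FG y z a b s t ^ k ≤ ∑ t ∈ (Icc 1 N).erase s, FG y z a b s t ^ k := by
    apply sum_le_sum_of_subset_of_nonneg (erase_subset_erase _ hS)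
    intro t _ _
    exact pow_nonneg (mul_nonneg (fd_one' _ _ _) (fd_one' _ _ _)) _
  have h1 : ∀ t ∈ (Icc 1 N).erase s, FG y z a b s t ^ k ≤
      (fd y z (Nat.dist s t) ^ (2 * k) + fd y z (a * (s + t) + b) ^ (2 * k)) / 2 := by
    intro t _
    unfold FG
    rw [mul_pow, pow_mul', pow_mul']
    nlinarith [sq_nonneg (fd y z (Nat.dist s t) ^ k - fd y z (a * (s + t) + b) ^ k)]
  have hN1 : 1 ≤ N := by
    have := mem_Icc.1 (hS hs)
    omega
  have hNr : (1 : ℝ) ≤ N := by exact_mod_cast hN1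
  have h2 : ∑ t ∈ (Icc 1 N).erase s, fd y z (Nat.dist s t) ^ (2 * k) ≤ 2 * (2 * N) :=
    (dist_sum_le N s (hS hs) (fun d => fd y z d ^ (2 * k)) (fun d => pow_nonneg (fd_one' _ _ _) _)).trans
      (mul_le_mul_of_nonneg_left (fd_moment y z (2 * k) N hy (by omega)) (by norm_num))
  have h3 : ∑ t ∈ (Icc 1 N).erase s, fd y z (a * (s + t) + b) ^ (2 * k) ≤ (4 * a + 2 * b + 1) * N := by
    rcases Nat.eq_zero_or_pos a with ha | ha
    · have hb : 1 ≤ b := by omega
      have e1 : ∀ t ∈ (Icc 1 N).erase s, fd y z (a * (s + t) + b) ^ (2 * k) = 1 := by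
        intro t _
        rw [ha, zero_mul, zero_add, fd_small y z b hb hby, one_pow]
      rw [sum_congr rfl e1, sum_const, nsmul_eq_mul, mul_one]
      have e2 : (((Icc 1 N).erase s).card : ℝ) ≤ N := by
        have := card_le_card (erase_subset s (Icc 1 N))
        rw [Nat.card_Icc, Nat.add_sub_cancel] at this
        exact_mod_cast this
      have e3 : 0 ≤ (4 * (a : ℝ) + 2 * b) * N := by positivity
      nlinarith
    · have e4 : ∑ t ∈ (Icc 1 N).erase s, fd y z (a * (s + t) + b) ^ (2 * k) ≤ 2 * ((2 * a * N + b : ℕ) : ℝ) := by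
        rw [← sum_image (g := fun t => a * (s + t) + b) (f := fun d => fd y z d ^ (2 * k))]
        · refine le_trans ?_ (fd_moment y z (2 * k) (2 * a * N + b) hy (by omega))
          apply sum_le_sum_of_subset_of_nonneg _ (fun _ _ _ => pow_nonneg (fd_one' _ _ _) _)
          intro d hd
          rw [mem_image] at hd
          obtain ⟨t, ht, rfl⟩ := hd
          rw [mem_erase, mem_Icc] at ht
          have h5 := mem_Icc.1 (hS hs)
          rw [mem_Icc]
          have h6 : a * (s + t) ≤ a * (2 * N) := Nat.mul_le_mul_left _ (by omega)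
          have h7 : a * (2 * N) = 2 * a * N := by ring
          have h8 : 0 < a * (s + t) := Nat.mul_pos ha (by omega)
          omega
        · intro u _ v _ huv
          simp only at huv
          have := Nat.eq_of_mul_eq_mul_left ha (show a * (s + u) = a * (s + v) by omega)
          omega
      refine e4.trans ?_
      push_cast
      have e5 : (b : ℝ) ≤ b * N := le_mul_of_one_le_right (Nat.cast_nonneg _) hNr
      nlinarith
  refine h0.trans ((sum_le_sum h1).trans ?_)
  rw [← sum_div, sum_add_distrib]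
  have : (0 : ℝ) ≤ N := Nat.cast_nonneg N
  nlinarith

lemma FG_sum (y z a b n N : ℕ) (hab : 1 ≤ a + b) (hby : b ≤ y) (hy : 1 ≤ y) (hk : 6 * (n + 1) ≤ y) (S : Finset ℕ)
    (hS : S ⊆ Icc 1 N) (η : ℝ) (hη : 0 < η)
    (hm : (3 + 2 * a + b) * (N : ℝ) ≤ (1 + η) ^ (n + 1) * S.card) (s : ℕ) (hs : s ∈ S) :
    ∑ t ∈ S.erase s, FG y z a b s t ≤ (1 + η) * S.card := by
  have h1 := FG_moment y z a b (n + 1) N hab hby hy hk S hS s hs
  have hFF : ∀ t, 0 ≤ FG y z a b s t := fun t => mul_nonneg (fd_one' _ _ _) (fd_one' _ _ _)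
  have h3 := pow_sum_div_card_le_sum_pow (s := S.erase s) (f := fun t => FG y z a b s t) (fun t _ => hFF t) n
  have hm0 : (0 : ℝ) < S.card := by exact_mod_cast card_pos.2 ⟨s, hs⟩
  by_contra hcon
  push Not at hcon
  set T := ∑ t ∈ S.erase s, FG y z a b s t with hT
  by_cases hc0 : (S.erase s).card = 0
  · rw [card_eq_zero] at hc0
    rw [hc0, sum_empty] at hT
    rw [hT] at hcon
    have : 0 < (1 + η) * S.card := by positivity
    linarith
  have hc1 : (0 : ℝ) < (S.erase s).card := by exact_mod_cast Nat.pos_of_ne_zero hc0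
  have hcle : ((S.erase s).card : ℝ) ≤ S.card := by exact_mod_cast card_le_card (erase_subset _ _)
  have h4 : T ^ (n + 1) ≤ (3 + 2 * a + b) * N * (S.card : ℝ) ^ n := by
    rw [div_le_iff₀ (by positivity)] at h3
    refine h3.trans ?_
    have : ((S.erase s).card : ℝ) ^ n ≤ (S.card : ℝ) ^ n := pow_le_pow_left₀ hc1.le hcle n
    calc _ ≤ (3 + 2 * a + b) * (N : ℝ) * ((S.erase s).card : ℝ) ^ n := by gcongr
      _ ≤ _ := by gcongr
  have h5 : ((1 + η) * S.card) ^ (n + 1) < T ^ (n + 1) := pow_lt_pow_left₀ hcon (by positivity) (by omega)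
  have h6 : (3 + 2 * a + b) * N * (S.card : ℝ) ^ n ≤ ((1 + η) * S.card) ^ (n + 1) := by
    calc (3 + 2 * a + b) * N * (S.card : ℝ) ^ n ≤ (1 + η) ^ (n + 1) * S.card * (S.card : ℝ) ^ n := by gcongr
      _ = _ := by rw [mul_pow]; ring
  linarith

end Pool.Agent.U918.SG
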