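import Mathlib
import Pool.Agent.U918.SG.Wt

/-! For almost all shifts the number of elements free of medium primes is the expected one. -/

set_option autoImplicit false

namespace Pool.Agent.U918.SG
open Finset Pool.Agent.H373R2.T7 Pool.Agent.Y877.SX Pool.Agent.U918.SM

open Classical in
theorem rough_manyG (a b : ℕ) (hab : 1 ≤ a + b) (A : ℕ) (δ ε : ℝ) (hδ : 0 < δ) (hε : 0 < ε) : ∃ K0 : ℕ, 1 ≤ K0 ∧ ∀ E : ℕ,
    ∃ x0 : ℕ, ∀ x : ℕ, x0 ≤ x → ∀ y z : ℕ, K0 * Real.log (Real.log x) ≤ y → y ≤ z → (z : ℝ) ≤ Real.log x ^ E →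
    ∀ S : Finset ℕ, S ⊆ Icc 1 x → (x : ℝ) ≤ S.card * Real.log x ^ A → ∀ M : ℕ, (∀ p ∈ mid y z, ¬ p ∣ M) →
    ∀ u : ℕ → ℕ, (∀ p ∈ mid y z, ∀ s ∈ S, ∀ t ∈ S, ∀ w, p ∣ u s + w → p ∣ u t + w → p ∣ Nat.dist s t * (a * (s + t) + b)) →
    ∀ v0 G : ℕ, √(x : ℝ) ≤ G →
    (((Icc 1 G).filter (fun g => δ * (S.card * Vm y z) <
      |((S.filter (fun s => ∀ p ∈ mid y z, ¬ p ∣ u s + (v0 + M * g))).card : ℝ) - S.card * Vm y z|)).card : ℝ) ≤ ε * G := by
  set η : ℝ := ε * δ ^ 2 / 2 with hη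
  have hη0 : 0 < η := by positivity
  have hlη : 0 < Real.log (1 + η) := Real.log_pos (by linarith)
  obtain ⟨K0, hK0⟩ := exists_nat_ge (6 * ((A + 2) / Real.log (1 + η) + 1))
  refine ⟨max K0 6, by omega, fun E => ?_⟩
  obtain ⟨G1, hG1⟩ := single_cnt (2 * E) 3
  obtain ⟨G2, hG2⟩ := pair_cnt (2 * E) 3
  obtain ⟨x1, hx1⟩ := Vz_inv_small E
  obtain ⟨x2, hx2⟩ := ev_L' (max (max (Real.exp 1) (Real.exp (Real.log (3 + 2 * a + b) + b))) (max 4 (2 * 24 / (ε / 2 * δ ^ 2))))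
  obtain ⟨x3, hx3⟩ := ev_log' (A + 2) (1 / (ε / 4 * δ ^ 2))
  refine ⟨max (max ((G1 + G2) ^ 2) x1) (max x2 (max x3 1)), fun x hx y z hy hyz hz S hS hSc M hM u hu v0 G hG => ?_⟩
  have b1 : (G1 + G2) ^ 2 ≤ x := le_trans (le_trans (le_max_left _ _) (le_max_left _ _)) hx
  have b2 : x1 ≤ x := le_trans (le_trans (le_max_right _ _) (le_max_left _ _)) hx
  have b3 : x2 ≤ x := le_trans (le_trans (le_max_left _ _) (le_max_right _ _)) hx
  have b4 : x3 ≤ x := le_trans (le_trans (le_trans (le_max_left _ _) (le_max_right _ _)) (le_max_right _ _)) hx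
  have b5 : 1 ≤ x := le_trans (le_trans (le_trans (le_max_right _ _) (le_max_right _ _)) (le_max_right _ _)) hx
  have hL := hx2 x b3
  have hx3' := hx3 x b4
  set L := Real.log x with hLd
  have hL1 : Real.exp 1 ≤ L := ((le_max_left _ _).trans (le_max_left _ _)).trans hL
  have hL1' : Real.exp (Real.log (3 + 2 * a + b) + b) ≤ L := ((le_max_right _ _).trans (le_max_left _ _)).trans hL
  have hL2 : 4 ≤ L := ((le_max_left _ _).trans (le_max_right _ _)).trans hL
  have hL3 : 2 * 24 / (ε / 2 * δ ^ 2) ≤ L := ((le_max_right _ _).trans (le_max_right _ _)).trans hL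
  have hL0' : 0 < L := by linarith
  have hLL : 1 ≤ Real.log L := by
    rw [← Real.log_exp 1]
    exact Real.log_le_log (Real.exp_pos 1) hL1
  have hxr : (1 : ℝ) ≤ x := by exact_mod_cast b5
  have hx0 : (0 : ℝ) < x := by linarith
  have hs1 : 1 ≤ √(x : ℝ) := by rw [← Real.sqrt_one]; exact Real.sqrt_le_sqrt hxr
  have hGr : (1 : ℝ) ≤ G := hs1.trans hG
  have hG0 : (0 : ℝ) < G := by linarith
  -- K
  have hK : ((max K0 6 : ℕ) : ℝ) * Real.log L ≤ y := hy
  have hK6 : (6 : ℝ) ≤ ((max K0 6 : ℕ) : ℝ) := by exact_mod_cast le_max_right _ _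
  have hKK : (K0 : ℝ) ≤ ((max K0 6 : ℕ) : ℝ) := by exact_mod_cast le_max_left _ _
  have hy6 : 6 ≤ y := by
    have : (6 : ℝ) ≤ y := by
      have h := mul_le_mul hK6 hLL zero_le_one (by linarith)
      linarith
    exact_mod_cast this
  have hz1 : 1 ≤ z := by omega
  have hlc : Real.log (3 + 2 * a + b) + b ≤ Real.log L := by
    have := Real.log_le_log (Real.exp_pos _) hL1'
    rwa [Real.log_exp] at this
  have hlc0 : 0 ≤ Real.log (3 + 2 * (a : ℝ) + b) := Real.log_nonneg (by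
    have h1 : (0 : ℝ) ≤ a := Nat.cast_nonneg a
    have h2 : (0 : ℝ) ≤ b := Nat.cast_nonneg b
    linarith)
  have hby : b ≤ y := by
    have h1 : (b : ℝ) ≤ y := by
      have h2 : 1 * Real.log L ≤ ((max K0 6 : ℕ) : ℝ) * Real.log L := mul_le_mul_of_nonneg_right (by linarith) (by linarith)
      linarith
    exact_mod_cast h1
  -- sizes of G
  have hGG : G1 + G2 ≤ G := by
    have h1 : ((G1 + G2 : ℕ) : ℝ) ≤ √(x : ℝ) := by
      apply Real.le_sqrt_of_sq_le
      exact_mod_cast b1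
    exact_mod_cast h1.trans hG
  have hlG : L / 2 ≤ Real.log G := by
    have := Real.log_le_log (by positivity) hG
    rwa [Real.log_sqrt hx0.le] at this
  have hlG2 : 2 ≤ Real.log G := by linarith
  have hlG0 : 0 < Real.log G := by linarith
  have hzG : (z : ℝ) ≤ Real.log G ^ (2 * E) := by
    refine hz.trans ?_
    rw [pow_mul]
    apply pow_le_pow_left₀ hL0'.le
    calc L ≤ 2 * Real.log G := by linarith
      _ ≤ Real.log G * Real.log G := mul_le_mul_of_nonneg_right hlG2 hlG0.le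
      _ = _ := (sq _).symm
  -- V
  set V := Vm y z with hV
  have hV0 : 0 < V := Vm_pos y z
  have hVL : 1 / L ≤ V := by
    have h1 := hx1 x b2 z hz1 hz
    have h2 : Vz z ≤ V := by
      rw [Vz_split y z hyz]
      exact mul_le_of_le_one_left hV0.le (Vz_le_one y)
    have h3 : L⁻¹ ≤ Vz z := by
      rw [inv_le_comm₀ (by linarith) (Vz_pos z)]
      exact h1
    rw [one_div]
    exact h3.trans h2
  set m : ℝ := (S.card : ℝ) with hm
  have hL0 : 0 < L := by linarith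
  have hm0 : 0 < m := by
    by_contra h
    push Not at h
    have : m * L ^ A ≤ 0 := mul_nonpos_of_nonpos_of_nonneg h (by positivity)
    linarith
  set r : ℝ := G / Real.log G ^ 3 with hr
  have hr0 : 0 ≤ r := by positivity
  -- choose n
  obtain ⟨n, hn⟩ : ∃ n, y / 6 = n + 1 := ⟨y / 6 - 1, by omega⟩
  have hn6 : 6 * (n + 1) ≤ y := by omega
  have hpow : (3 + 2 * a + b) * (x : ℝ) ≤ (1 + η) ^ (n + 1) * m := by
    have h1 : (3 + 2 * a + b) * L ^ A ≤ (1 + η) ^ (n + 1) := by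
      have h2 : ((n + 1 : ℕ) : ℝ) ≥ (y : ℝ) / 6 - 1 := by
        have : y < 6 * (n + 1) + 6 := by omega
        have h3 : (y : ℝ) < 6 * ((n + 1 : ℕ) : ℝ) + 6 := by exact_mod_cast this
        linarith
      have h3 : (y : ℝ) / 6 - 1 ≥ (K0 / 6 - 1) * Real.log L := by
        have h0 : (K0 : ℝ) * Real.log L ≤ y := le_trans (mul_le_mul_of_nonneg_right hKK (by linarith)) hK
        have h1 : ((K0 : ℝ) / 6 - 1) * Real.log L = (K0 * Real.log L) / 6 - Real.log L := by ring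
        rw [h1]
        linarith
      have h4 : (A + 2) / Real.log (1 + η) ≤ K0 / 6 - 1 := by linarith
      have h5 : (A + 2 : ℝ) ≤ (K0 / 6 - 1) * Real.log (1 + η) := by
        rwa [div_le_iff₀ hlη] at h4
      have h6 : Real.log ((3 + 2 * a + b) * L ^ A) ≤ ((n + 1 : ℕ) : ℝ) * Real.log (1 + η) := by
        rw [Real.log_mul (by positivity) (by positivity), Real.log_pow]
        have hb0 : (0 : ℝ) ≤ b := Nat.cast_nonneg b
        calc Real.log (3 + 2 * a + b) + A * Real.log L ≤ 2 * Real.log L + A * Real.log L := by linarith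
          _ = (A + 2) * Real.log L := by ring
          _ ≤ ((K0 / 6 - 1) * Real.log (1 + η)) * Real.log L := by gcongr
          _ = ((K0 / 6 - 1) * Real.log L) * Real.log (1 + η) := by ring
          _ ≤ ((n + 1 : ℕ) : ℝ) * Real.log (1 + η) := by gcongr; linarith
      rw [← Real.log_pow] at h6
      exact (Real.log_le_log_iff (by positivity) (by positivity)).1 h6
    calc (3 + 2 * a + b) * (x : ℝ) ≤ (3 + 2 * a + b) * (m * L ^ A) := by gcongr
      _ = (3 + 2 * a + b) * L ^ A * m := by ring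
      _ ≤ _ := by gcongr
  obtain ⟨P, hP⟩ : ∃ P : ℕ → ℕ → Prop, ∀ s g, P s g ↔ (∀ p ∈ mid y z, ¬ p ∣ u s + (v0 + M * g)) := ⟨_, fun _ _ => Iff.rfl⟩
  have c1 : ∀ s ∈ S, G * V - r ≤ (((Icc 1 G).filter (fun g => P s g)).card : ℝ) := by
    intro s hs
    have := hG1 G (by omega) z hz1 hzG y M (u s + v0) hM
    have e1 : (Icc 1 G).filter (fun g => P s g) = (Icc 1 G).filter (fun g => ∀ p ∈ mid y z, ¬ p ∣ u s + v0 + M * g) := by
      ext g
      rw [mem_filter, mem_filter, hP, ← add_assoc]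
    rw [e1]
    exact this
  have c2 : ∀ s ∈ S, ∀ t ∈ S.erase s, (((Icc 1 G).filter (fun g => P s g ∧ P t g)).card : ℝ) ≤ G * (V ^ 2 * FG y z a b s t) + r := by
    intro s hs t ht
    have := hG2 G (by omega) z hz1 hzG y M (u s + v0) (u t + v0) (Nat.dist s t * (a * (s + t) + b)) hM (by
      intro p hp g h1 h2
      rw [add_assoc] at h1 h2
      exact hu p hp s hs t (mem_of_mem_erase ht) _ h1 h2)
    have e1 : (Icc 1 G).filter (fun g => P s g ∧ P t g) = (Icc 1 G).filter (fun g => (∀ p ∈ mid y z, ¬ p ∣ u s + v0 + M * g) ∧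
        (∀ p ∈ mid y z, ¬ p ∣ u t + v0 + M * g)) := by
      ext g
      rw [mem_filter, mem_filter, hP, hP, ← add_assoc, ← add_assoc]
    rw [e1]
    refine this.trans ?_
    have h5 : fd y z (Nat.dist s t * (a * (s + t) + b)) ≤ FG y z a b s t := fd_mul _ _ _ _
    have h6 : (G : ℝ) * (V ^ 2 * fd y z (Nat.dist s t * (a * (s + t) + b))) ≤ G * (V ^ 2 * FG y z a b s t) :=
      mul_le_mul_of_nonneg_left (mul_le_mul_of_nonneg_left h5 (by positivity)) hG0.le
    linarith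
  have c3 : ∀ s ∈ S, ∑ t ∈ S.erase s, FG y z a b s t ≤ (1 + η) * m := fun s hs =>
    FG_sum y z a b n x hab hby (by omega) hn6 S hS η hη0 hpow s hs
  have key := cheb2 S (Icc 1 G) P V η δ r m G (FG y z a b) hV0 (Vm_le y z) hδ rfl (by simp) hr0 c1 c2 c3
  have e2 : (Icc 1 G).filter (fun g => δ * (m * V) < |((S.filter (fun s => ∀ p ∈ mid y z, ¬ p ∣ u s + (v0 + M * g))).card : ℝ) -
      m * V|) = (Icc 1 G).filter (fun g => δ * (m * V) < |((S.filter (fun s => P s g)).card : ℝ) - m * V|) := by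
    have e3 : ∀ g, S.filter (fun s => ∀ p ∈ mid y z, ¬ p ∣ u s + (v0 + M * g)) = S.filter (fun s => P s g) := by
      intro g
      ext s
      rw [mem_filter, mem_filter, hP]
    ext g
    rw [mem_filter, mem_filter, e3]
  rw [e2]
  set cnt : ℝ := (((Icc 1 G).filter (fun g => δ * (m * V) < |((S.filter (fun s => P s g)).card : ℝ) - m * V|)).card : ℝ) with hcnt
  have hcnt0 : 0 ≤ cnt := Nat.cast_nonneg _
  -- conclude
  have hmV : 0 < m * V := by positivity
  have k1 : m * G ≤ ε / 4 * δ ^ 2 * (G * (m * V) ^ 2) := by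
    -- m V^2 ≥ m / L^2 ≥ x / L^(A+2) ≥ ...
    have h1 : 1 / L ^ 2 ≤ V ^ 2 := by
      have := pow_le_pow_left₀ (by positivity) hVL 2
      rwa [div_pow, one_pow] at this
    have h2 : L ^ (A + 2) ≤ ε / 4 * δ ^ 2 * x := by
      rw [one_div, inv_mul_le_iff₀ (by positivity)] at hx3'
      have h5 : √(x : ℝ) ≤ x := by
        calc √(x : ℝ) = √(x : ℝ) * 1 := (mul_one _).symm
          _ ≤ √(x : ℝ) * √(x : ℝ) := mul_le_mul_of_nonneg_left hs1 (Real.sqrt_nonneg _)
          _ = x := Real.mul_self_sqrt hx0.le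
      exact hx3'.trans (mul_le_mul_of_nonneg_left h5 (by positivity))
    have h3 : 1 ≤ ε / 4 * δ ^ 2 * (m * V ^ 2) := by
      have h4 : (L ^ 2)⁻¹ * L ^ (A + 2) = L ^ A := by
        rw [pow_add]
        field_simp
      have h5 : (x : ℝ) / L ^ A ≤ m := by
        rw [div_le_iff₀ (by positivity)]
        exact hSc
      calc (1 : ℝ) = L ^ (A + 2) * (1 / L ^ (A + 2)) := by field_simp
        _ ≤ (ε / 4 * δ ^ 2 * x) * (1 / L ^ (A + 2)) := by gcongr
        _ = ε / 4 * δ ^ 2 * ((x / L ^ A) * (1 / L ^ 2)) := by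
            rw [pow_add]
            field_simp
        _ ≤ ε / 4 * δ ^ 2 * (m * V ^ 2) := by gcongr
    calc m * G = m * G * 1 := by ring
      _ ≤ m * G * (ε / 4 * δ ^ 2 * (m * V ^ 2)) := by gcongr
      _ = _ := by ring
  have k2 : 3 * (m ^ 2 * r) ≤ ε / 4 * δ ^ 2 * (G * (m * V) ^ 2) := by
    have h1 : 1 / L ^ 2 ≤ V ^ 2 := by
      have := pow_le_pow_left₀ (by positivity) hVL 2
      rwa [div_pow, one_pow] at this
    have h2 : r ≤ G * (8 / L ^ 3) := by
      rw [hr, div_eq_mul_inv]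
      apply mul_le_mul_of_nonneg_left _ hG0.le
      have h3 : (L / 2) ^ 3 ≤ Real.log G ^ 3 := pow_le_pow_left₀ (by positivity) hlG 3
      have h4 := inv_anti₀ (by positivity) h3
      refine h4.trans (le_of_eq ?_)
      field_simp
      norm_num
    have h3 : 24 / L ≤ ε / 4 * δ ^ 2 := by
      rw [div_le_iff₀ hL0]
      rw [div_le_iff₀ (by positivity)] at hL3
      have h9 : ε / 4 * δ ^ 2 * L = (L * (ε / 2 * δ ^ 2)) / 2 := by ring
      rw [h9]
      linarith
    calc 3 * (m ^ 2 * r) ≤ 3 * (m ^ 2 * (G * (8 / L ^ 3))) := by gcongr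
      _ = (24 / L) * (G * m ^ 2 * (1 / L ^ 2)) := by
          field_simp
          ring
      _ ≤ (ε / 4 * δ ^ 2) * (G * m ^ 2 * V ^ 2) := by gcongr
      _ = _ := by ring
  have k3 : cnt * (δ * (m * V)) ^ 2 ≤ ε * G * (δ * (m * V)) ^ 2 := by
    refine key.trans ?_
    have h1 : η * (G * (m * V) ^ 2) = ε / 2 * δ ^ 2 * (G * (m * V) ^ 2) := by rw [hη]; ring
    have h2 : ε * G * (δ * (m * V)) ^ 2 = ε / 2 * δ ^ 2 * (G * (m * V) ^ 2) + ε / 4 * δ ^ 2 * (G * (m * V) ^ 2) +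
      ε / 4 * δ ^ 2 * (G * (m * V) ^ 2) := by ring
    rw [h1, h2]
    linarith
  exact le_of_mul_le_mul_right k3 (by positivity)

end Pool.Agent.U918.SG
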