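import Mathlib
import Pool.Agent.Y877.SxG
import Pool.Agent.U918.SG.Rough
import Pool.Agent.U918.SM.Asm

/-! Values of quadratic polynomials with both signs. -/

set_option autoImplicit false

namespace Pool.Agent.U918.SG
open Finset Pool.Agent.H373R2.T7 Pool.Agent.Y877.SX Pool.Agent.U918.SM Polynomial

/-- the polynomial `a s² + b s` -/
def qf (a b s : ℕ) : ℕ := a * s ^ 2 + b * s

/-- its degree -/
def dg (a : ℕ) : ℕ := if a = 0 then 1 else 2

/-- `(a s² + b s) + h` or `h - (a s² + b s)` -/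
def vl (σ : Bool) (a b s h : ℕ) : ℕ := if σ then qf a b s + h else h - qf a b s

/-- the sign -/
def sg (σ : Bool) : ℤ := if σ then 1 else -1

noncomputable def PG (a b : ℕ) : ℤ[X] := C (a : ℤ) * X ^ 2 + C (b : ℤ) * X

lemma PG_eval (a b s : ℕ) : (PG a b).eval (s : ℤ) = (qf a b s : ℤ) := by
  unfold PG qf
  simp

lemma PG_deg (a b : ℕ) (hab : 1 ≤ a + b) : (PG a b).natDegree = dg a := by
  unfold PG dg
  split_ifs with h
  · subst h
    have hb : (b : ℤ) ≠ 0 := by
      have : b ≠ 0 := by omega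
      exact_mod_cast this
    rw [Nat.cast_zero, C_0, zero_mul, zero_add]
    exact natDegree_C_mul_X (b : ℤ) hb
  · have ha : (a : ℤ) ≠ 0 := by exact_mod_cast h
    compute_degree!

lemma PG_lead (a b : ℕ) (hab : 1 ≤ a + b) : 0 < (PG a b).leadingCoeff := by
  rw [leadingCoeff, PG_deg a b hab]
  unfold PG dg
  split_ifs with h
  · subst h
    have hb : 0 < (b : ℤ) := by
      have : 0 < b := by omega
      exact_mod_cast this
    simp
    exact_mod_cast hb
  · have ha : 0 < (a : ℤ) := by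
      have : 0 < a := by omega
      exact_mod_cast this
    simp [coeff_X]
    exact_mod_cast ha

lemma sg_cases (σ : Bool) : sg σ = 1 ∨ sg σ = -1 := by
  cases σ <;> simp [sg]

lemma dg_cases (a : ℕ) : dg a = 1 ∨ dg a = 2 := by
  unfold dg
  split_ifs <;> simp

lemma qf_le (a b s x : ℕ) (hs : 1 ≤ s) (hsx : s ≤ x) : qf a b s ≤ (a + b) * x ^ dg a := by
  unfold qf dg
  split_ifs with h
  · subst h
    rw [zero_mul, zero_add, zero_add, pow_one]
    exact Nat.mul_le_mul_left b hsx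
  · have h1 : a * s ^ 2 ≤ a * x ^ 2 := Nat.mul_le_mul_left a (Nat.pow_le_pow_left hsx 2)
    have h2 : b * s ≤ b * x ^ 2 := Nat.mul_le_mul_left b (by nlinarith)
    rw [add_mul]
    omega

lemma qf_pos (a b s : ℕ) (hab : 1 ≤ a + b) (hs : 1 ≤ s) : 1 ≤ qf a b s := by
  unfold qf
  rcases Nat.eq_zero_or_pos a with h | h
  · have : 0 < b * s := Nat.mul_pos (by omega) hs
    omega
  · have : 0 < a * s ^ 2 := Nat.mul_pos h (pow_pos hs 2)
    omega

lemma vl_cast (σ : Bool) (a b s h : ℕ) (hh : σ = false → qf a b s ≤ h) :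
    (vl σ a b s h : ℤ) = (h : ℤ) + sg σ * (PG a b).eval (s : ℤ) := by
  rw [PG_eval]
  unfold vl sg
  cases σ
  · simp only [Bool.false_eq_true, if_false]
    rw [Nat.cast_sub (hh rfl)]
    ring
  · simp only [if_true]
    push_cast
    ring

lemma vl_add (σ : Bool) (a b s h w : ℕ) (hh : σ = false → qf a b s ≤ h) :
    vl σ a b s (h + w) = vl σ a b s h + w := by
  unfold vl
  cases σ
  · simp only [Bool.false_eq_true, if_false]
    have := hh rfl
    omega
  · simp only [if_true]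
    omega

/-- the residue used in the sieve: a natural number congruent to `± qf` modulo the medium primes -/
def us (σ : Bool) (a b Q s : ℕ) : ℕ := if σ then qf a b s else Q - qf a b s

lemma us_dvd (σ : Bool) (a b Q s h p : ℕ) (hQ : p ∣ Q) (hQs : qf a b s ≤ Q) (hh : σ = false → qf a b s ≤ h) :
    p ∣ us σ a b Q s + h ↔ p ∣ vl σ a b s h := by
  unfold us vl
  cases σ
  · simp only [Bool.false_eq_true, if_false]
    have h1 := hh rfl
    have h2 : Q - qf a b s + h = Q + (h - qf a b s) := by omega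
    rw [h2]
    exact Nat.dvd_add_right hQ
  · simp only [if_true]

lemma us_pair (σ : Bool) (a b Q s t w p : ℕ) (hQs : qf a b s ≤ Q) (hQt : qf a b t ≤ Q)
    (h1 : p ∣ us σ a b Q s + w) (h2 : p ∣ us σ a b Q t + w) : p ∣ Nat.dist s t * (a * (s + t) + b) := by
  have h3 : (p : ℤ) ∣ (us σ a b Q s : ℤ) - (us σ a b Q t : ℤ) := by
    have h4 : (p : ℤ) ∣ ((us σ a b Q s + w : ℕ) : ℤ) := by exact_mod_cast h1
    have h5 : (p : ℤ) ∣ ((us σ a b Q t + w : ℕ) : ℤ) := by exact_mod_cast h2
    have := dvd_sub h4 h5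
    push_cast at this
    have e : (us σ a b Q s : ℤ) + w - (us σ a b Q t + w) = (us σ a b Q s : ℤ) - (us σ a b Q t : ℤ) := by ring
    rwa [e] at this
  have h6 : (p : ℤ) ∣ ((s : ℤ) - t) * (a * (s + t) + b) := by
    have e : ((us σ a b Q s : ℤ) - (us σ a b Q t : ℤ)) = sg σ * (((s : ℤ) - t) * (a * (s + t) + b)) := by
      unfold us sg
      cases σ
      · simp only [Bool.false_eq_true, if_false]
        rw [Nat.cast_sub hQs, Nat.cast_sub hQt]
        unfold qf
        push_cast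
        ring
      · simp only [if_true]
        unfold qf
        push_cast
        ring
    rw [e] at h3
    rcases sg_cases σ with h | h
    · rwa [h, one_mul] at h3
    · rw [h, neg_one_mul] at h3
      exact (dvd_neg.1 h3)
  rw [← Int.natCast_dvd_natCast]
  push_cast
  rcases le_total s t with hst | hst
  · rw [Nat.dist_eq_sub_of_le hst, Nat.cast_sub hst]
    have e : ((t : ℤ) - s) * (a * (s + t) + b) = -(((s : ℤ) - t) * (a * (s + t) + b)) := by ring
    rw [e]
    exact (dvd_neg).2 h6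
  · rw [Nat.dist_eq_sub_of_le_right hst, Nat.cast_sub hst]
    exact h6

lemma bil_stepG (σ : Bool) (a b x N z : ℕ) (R w : ℝ)
    (hbil : ∀ Gf c : ℕ → ℂ, (∀ a, ‖Gf a‖ ≤ 1) → (∀ m, ‖c m‖ ≤ 1) →
      ‖∑ h ∈ Icc 1 N, ∑ m ∈ Icc 1 x, Gf h * c m *
      ((lamI (h + sg σ * (PG a b).eval (m : ℤ)) - lamzI z (h + sg σ * (PG a b).eval (m : ℤ)) : ℝ) : ℂ)‖ ≤ R)
    (S H : Finset ℕ) (hS : S ⊆ Icc 1 x) (hH : H ⊆ Icc 1 N) (hpos : ∀ h ∈ H, ∀ s ∈ S, 1 ≤ vl σ a b s h)
    (hw : ∀ h ∈ H, w ≤ |∑ s ∈ S, (ArithmeticFunction.vonMangoldt (vl σ a b s h) - lamz z (vl σ a b s h))|) :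
    H.card * w ≤ R := by
  classical
  obtain ⟨D, hD⟩ : ∃ D : ℕ → ℝ, ∀ h, D h = ∑ s ∈ S, (ArithmeticFunction.vonMangoldt (vl σ a b s h) - lamz z (vl σ a b s h)) :=
    ⟨_, fun _ => rfl⟩
  obtain ⟨τ, hτ⟩ : ∃ τ : ℕ → ℝ, ∀ h, τ h = if 0 ≤ D h then 1 else -1 := ⟨_, fun _ => rfl⟩
  have hτ1 : ∀ h, |τ h| = 1 := by
    intro h
    rw [hτ]
    split_ifs <;> simp
  have hτD : ∀ h, τ h * D h = |D h| := by
    intro h
    rw [hτ]
    split_ifs with h0
    · rw [one_mul, abs_of_nonneg h0]
    · push Not at h0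
      rw [abs_of_neg h0]
      ring
  have h1 := hbil (fun h => if h ∈ H then (τ h : ℂ) else 0) (fun m => if m ∈ S then 1 else 0) (by
    intro h
    split_ifs
    · rw [Complex.norm_real, Real.norm_eq_abs, hτ1]
    · simp) (by
    intro h
    split_ifs <;> simp)
  have e1 : ∑ h ∈ Icc 1 N, ∑ m ∈ Icc 1 x, (if h ∈ H then (τ h : ℂ) else 0) * (if m ∈ S then (1 : ℂ) else 0) *
      ((lamI (h + sg σ * (PG a b).eval (m : ℤ)) - lamzI z (h + sg σ * (PG a b).eval (m : ℤ)) : ℝ) : ℂ) =
      ((∑ h ∈ H, |D h| : ℝ) : ℂ) := by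
    have f1 : (Icc 1 N).filter (fun a => a ∈ H) = H := by
      ext a
      rw [mem_filter]
      exact ⟨fun h => h.2, fun h => ⟨hH h, h⟩⟩
    have f2 : (Icc 1 x).filter (fun a => a ∈ S) = S := by
      ext a
      rw [mem_filter]
      exact ⟨fun h => h.2, fun h => ⟨hS h, h⟩⟩
    rw [Complex.ofReal_sum]
    conv_rhs => rw [← f1, sum_filter]
    apply sum_congr rfl
    intro h ha
    rw [mem_Icc] at ha
    by_cases haH : h ∈ H
    · rw [if_pos haH, if_pos haH, ← hτD, Complex.ofReal_mul, hD, Complex.ofReal_sum, mul_sum]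
      conv_rhs => rw [← f2, sum_filter]
      apply sum_congr rfl
      intro m _
      by_cases hmS : m ∈ S
      · rw [if_pos hmS, if_pos hmS, mul_one]
        congr 2
        have hp := hpos h haH m hmS
        have hle : σ = false → qf a b m ≤ h := by
          intro hσ
          unfold vl at hp
          rw [hσ] at hp
          simp only [Bool.false_eq_true, if_false] at hp
          omega
        rw [← vl_cast σ a b m h hle]
        unfold lamI lamzI
        rw [if_pos (by exact_mod_cast hp), if_pos (by exact_mod_cast hp), Int.toNat_natCast]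
      · rw [if_neg hmS, if_neg hmS, mul_zero, zero_mul]
    · rw [if_neg haH, if_neg haH]
      apply sum_eq_zero
      intro m _
      rw [zero_mul, zero_mul]
  rw [e1, Complex.norm_real, Real.norm_eq_abs] at h1
  have h2 : ∑ _h ∈ H, w ≤ ∑ h ∈ H, |D h| := sum_le_sum (fun h hh => by rw [hD]; exact hw h hh)
  rw [sum_const, nsmul_eq_mul] at h2
  exact h2.trans ((le_abs_self _).trans h1)

lemma pp_sumG (x Y : ℕ) (hY : 1 ≤ Y) (σ : Bool) (a b : ℕ) (S H : Finset ℕ) (hS : S ⊆ Icc 1 x)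
    (hpos : ∀ h ∈ H, ∀ s ∈ S, 1 ≤ vl σ a b s h) (hH : ∀ s ∈ S, ∀ h ∈ H, vl σ a b s h ≤ Y) :
    ∑ h ∈ H, ∑ s ∈ S, (if (vl σ a b s h).Prime then (0 : ℝ) else ArithmeticFunction.vonMangoldt (vl σ a b s h)) ≤
      x * (2 * √(Y : ℝ) * Real.log Y) := by
  rw [sum_comm]
  have h1 : ∀ s ∈ S, ∑ h ∈ H, (if (vl σ a b s h).Prime then (0 : ℝ) else ArithmeticFunction.vonMangoldt (vl σ a b s h)) ≤
      2 * √(Y : ℝ) * Real.log Y := by
    intro s hs
    have h2 := Chebyshev.psi_sub_theta_le (x := (Y : ℝ)) (by exact_mod_cast hY)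
    rw [Chebyshev.psi_sub_theta_eq_sum_not_prime, Nat.floor_natCast, sum_filter] at h2
    refine le_trans ?_ h2
    have e1 : ∑ h ∈ H, (if (vl σ a b s h).Prime then (0 : ℝ) else ArithmeticFunction.vonMangoldt (vl σ a b s h)) =
        ∑ n ∈ H.image (fun h => vl σ a b s h), (if ¬ n.Prime then ArithmeticFunction.vonMangoldt n else (0 : ℝ)) := by
      rw [sum_image]
      · apply sum_congr rfl
        intro h _
        by_cases hp : (vl σ a b s h).Prime
        · rw [if_pos hp, if_neg (not_not.2 hp)]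
        · rw [if_neg hp, if_pos hp]
      · intro u hu v hv huv
        have p1 := hpos u (mem_coe.1 hu) s hs
        have p2 := hpos v (mem_coe.1 hv) s hs
        simp only at huv
        unfold vl at huv p1 p2
        split_ifs at huv p1 p2 <;> omega
    rw [e1]
    apply sum_le_sum_of_subset_of_nonneg
    · intro n hn
      rw [mem_image] at hn
      obtain ⟨h, hh, rfl⟩ := hn
      rw [mem_Ioc]
      have := hpos h hh s hs
      exact ⟨by omega, hH s hs h hh⟩
    · intro n _ _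
      split_ifs
      · exact le_rfl
      · exact ArithmeticFunction.vonMangoldt_nonneg
  have hc : (S.card : ℝ) ≤ x := by
    have := card_le_card hS
    rw [Nat.card_Icc, Nat.add_sub_cancel] at this
    exact_mod_cast this
  calc _ ≤ ∑ _s ∈ S, 2 * √(Y : ℝ) * Real.log Y := sum_le_sum h1
    _ = S.card * (2 * √(Y : ℝ) * Real.log Y) := by rw [sum_const, nsmul_eq_mul]
    _ ≤ _ := by
        apply mul_le_mul_of_nonneg_right hc
        have : 0 ≤ Real.log Y := Real.log_natCast_nonneg Y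
        positivity

end Pool.Agent.U918.SG
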