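import Mathlib
import Pool.Agent.U918.SG.Val

/-! Assembly for one window. -/

set_option autoImplicit false

namespace Pool.Agent.U918.SG
open Finset Pool.Agent.H373R2.T7 Pool.Agent.Y877.SX Pool.Agent.U918.SM Polynomial

lemma lamz_eqG (σ : Bool) (a b y z M Q H0 s w : ℕ) (hH0 : σ = false → qf a b s < H0)
    (hs : ∀ p : ℕ, p.Prime → p ≤ y → ¬ p ∣ vl σ a b s H0) (hM : ∀ p : ℕ, p.Prime → p ≤ y → p ∣ M)
    (hQ : ∀ p ∈ mid y z, p ∣ Q) (hQs : qf a b s ≤ Q) :
    lamz z (vl σ a b s (H0 + M * w)) = if ∀ p ∈ mid y z, ¬ p ∣ us σ a b Q s + (H0 + M * w) then (Vz z)⁻¹ else 0 := by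
  unfold lamz
  have hle : σ = false → qf a b s ≤ H0 := fun h => (hH0 h).le
  have hle2 : σ = false → qf a b s ≤ H0 + M * w := fun h => (hH0 h).le.trans (Nat.le_add_right _ _)
  have : (∀ p ∈ pz z, ¬ p ∣ vl σ a b s (H0 + M * w)) ↔ (∀ p ∈ mid y z, ¬ p ∣ us σ a b Q s + (H0 + M * w)) := by
    constructor
    · intro h p hp
      rw [us_dvd σ a b Q s _ p (hQ p hp) hQs hle2]
      exact h p (mem_pz.2 (mem_mid.1 hp).2)
    · intro h p hp hd
      rw [mem_pz] at hp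
      by_cases hy : y < p
      · have hp' : p ∈ mid y z := mem_mid.2 ⟨hy, hp⟩
        exact h p hp' ((us_dvd σ a b Q s _ p (hQ p hp') hQs hle2).2 hd)
      · have h1 : p ∣ M * w := (hM p hp.2 (by omega)).mul_right _
        rw [vl_add σ a b s H0 (M * w) hle] at hd
        exact hs p hp.2 (by omega) ((Nat.dvd_add_left h1).1 hd)
  by_cases h : ∀ p ∈ mid y z, ¬ p ∣ us σ a b Q s + (H0 + M * w)
  · rw [if_pos h, if_pos (this.2 h)]
  · rw [if_neg h, if_neg (fun h2 => h (this.1 h2))]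

open Classical in
lemma assembleG (S : Finset ℕ) (σ : Bool) (a b x y z N Y M Q G H0 : ℕ) (δ m R : ℝ) (hδ : 0 < δ) (hδ1 : δ ≤ 1) (hm : (S.card : ℝ) = m) (hm0 : 0 < m)
    (hY1 : 1 ≤ Y) (hM1 : 1 ≤ M) (hyz : y ≤ z) (hS : S ⊆ Icc 1 x)
    (hH0 : σ = false → ∀ s ∈ S, qf a b s < H0)
    (hSp : ∀ s ∈ S, ∀ p : ℕ, p.Prime → p ≤ y → ¬ p ∣ vl σ a b s H0)
    (hMp : ∀ p : ℕ, p.Prime → p ≤ y → p ∣ M) (hg1 : H0 + M * G ≤ N)
    (hYb : ∀ s ∈ S, ∀ h ≤ N, vl σ a b s h ≤ Y)
    (hQ : ∀ p ∈ mid y z, p ∣ Q) (hQs : ∀ s ∈ S, qf a b s ≤ Q)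
    (hrough : (((Icc 1 G).filter (fun g => δ * (m * Vm y z) <
      |((S.filter (fun s => ∀ p ∈ mid y z, ¬ p ∣ us σ a b Q s + (H0 + M * g))).card : ℝ) - m * Vm y z|)).card : ℝ) ≤ δ * G)
    (hbil : ∀ Gf c : ℕ → ℂ, (∀ a, ‖Gf a‖ ≤ 1) → (∀ m, ‖c m‖ ≤ 1) →
      ‖∑ h ∈ Icc 1 N, ∑ m ∈ Icc 1 x, Gf h * c m *
      ((lamI (h + sg σ * (PG a b).eval (m : ℤ)) - lamzI z (h + sg σ * (PG a b).eval (m : ℤ)) : ℝ) : ℂ)‖ ≤ R)
    (hR : R ≤ (δ * G) * (δ * m)) (hPP : x * (2 * √(Y : ℝ) * Real.log Y) ≤ (δ * G) * (δ * m)) :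
    (((Icc 1 G).filter (fun g => ¬ ((1 - 3 * δ) * (m * (Vz y)⁻¹) ≤
        ((S.filter (fun s => (vl σ a b s (H0 + M * g)).Prime)).card : ℝ) * Real.log Y ∧
      ((S.filter (fun s => (vl σ a b s (H0 + M * g)).Prime)).card : ℝ) * Real.log (δ * (M * G)) ≤
        (1 + 3 * δ) * (m * (Vz y)⁻¹)))).card : ℝ) ≤ 4 * δ * G := by
  have hδm : 0 < δ * m := by positivity
  have hVy := Vz_pos y
  have hVz := Vz_pos z
  have hVm := Vm_pos y z
  have hVy1 : 1 ≤ (Vz y)⁻¹ := by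
    rw [one_le_inv₀ hVy]
    exact Vz_le_one y
  have hG0 : (0 : ℝ) ≤ G := Nat.cast_nonneg G
  have hsplit := Vz_split y z hyz
  have hposH : ∀ g : ℕ, 1 ≤ g → ∀ s ∈ S, M * g + (vl σ a b s H0) = vl σ a b s (H0 + M * g) := by
    intro g _ s hs
    rw [vl_add σ a b s H0 (M * g) (fun h => (hH0 h s hs).le)]
    ring
  have hMg : ∀ g : ℕ, 1 ≤ g → 1 ≤ M * g := fun g hg => Nat.mul_pos hM1 hg
  -- the four bad sets
  obtain ⟨cX, hcX⟩ : ∃ cX : ℕ → ℝ, ∀ g, cX g = ((S.filter (fun s => ∀ p ∈ mid y z, ¬ p ∣ us σ a b Q s + (H0 + M * g))).card : ℝ) :=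
    ⟨_, fun _ => rfl⟩
  obtain ⟨T, hT⟩ : ∃ T : ℕ → ℝ, ∀ g, T g = ∑ s ∈ S, ArithmeticFunction.vonMangoldt (vl σ a b s (H0 + M * g)) := ⟨_, fun _ => rfl⟩
  obtain ⟨PP, hPPd⟩ : ∃ PP : ℕ → ℝ, ∀ g, PP g = ∑ s ∈ S, (if (vl σ a b s (H0 + M * g)).Prime then (0 : ℝ) else
    ArithmeticFunction.vonMangoldt (vl σ a b s (H0 + M * g))) := ⟨_, fun _ => rfl⟩
  set B1 := (Icc 1 G).filter (fun g => δ * (m * Vm y z) < |cX g - m * Vm y z|) with hB1
  set B2 := (Icc 1 G).filter (fun g => |cX g - m * Vm y z| ≤ δ * (m * Vm y z) ∧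
    2 * δ * (m * (Vz y)⁻¹) < |T g - m * (Vz y)⁻¹|) with hB2
  set B3 := (Icc 1 G).filter (fun g => δ * m < PP g) with hB3
  set B4 := (Icc 1 G).filter (fun g : ℕ => (g : ℝ) ≤ δ * G) with hB4
  have hinj : Function.Injective (fun g => H0 + M * g) := by
    intro u v huv
    simp only at huv
    exact Nat.eq_of_mul_eq_mul_left hM1 (Nat.add_left_cancel huv)
  have hrange : ∀ g ∈ Icc 1 G, H0 + M * g ∈ Icc 1 N := by
    intro g hg
    rw [mem_Icc] at hg ⊢
    have h1 := hMg g hg.1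
    have h2 : M * g ≤ M * G := Nat.mul_le_mul_left _ hg.2
    omega
  have hpos' : ∀ g ∈ Icc 1 G, ∀ s ∈ S, 1 ≤ vl σ a b s (H0 + M * g) := by
    intro g hg s hs
    have h1 := hposH g (mem_Icc.1 hg).1 s hs
    have h2 := hMg g (mem_Icc.1 hg).1
    omega
  have c1 : (B1.card : ℝ) ≤ δ * G := by
    have : B1 = (Icc 1 G).filter (fun g => δ * (m * Vm y z) <
      |((S.filter (fun s => ∀ p ∈ mid y z, ¬ p ∣ us σ a b Q s + (H0 + M * g))).card : ℝ) - m * Vm y z|) := by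
      rw [hB1]
      ext g
      rw [mem_filter, mem_filter, hcX]
    rw [this]
    exact hrough
  have c2 : (B2.card : ℝ) ≤ δ * G := by
    have h1 := bil_stepG σ a b x N z R (δ * m) hbil S (B2.image (fun g => H0 + M * g)) hS (by
      intro h hh
      rw [mem_image] at hh
      obtain ⟨g, hg, rfl⟩ := hh
      exact hrange g (mem_filter.1 hg).1) (by
      intro h hh
      rw [mem_image] at hh
      obtain ⟨g, hg, rfl⟩ := hh
      exact hpos' g (mem_filter.1 hg).1) (by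
      intro h hh
      rw [mem_image] at hh
      obtain ⟨g, hg, rfl⟩ := hh
      rw [hB2, mem_filter] at hg
      obtain ⟨_, h2, h3⟩ := hg
      rw [sum_sub_distrib, ← hT]
      have h4 : ∑ s ∈ S, lamz z (vl σ a b s (H0 + M * g)) = (Vz z)⁻¹ * cX g := by
        have : ∀ s ∈ S, lamz z (vl σ a b s (H0 + M * g)) = if ∀ p ∈ mid y z, ¬ p ∣ us σ a b Q s + (H0 + M * g) then (Vz z)⁻¹ else 0 := by
          intro s hs
          exact lamz_eqG σ a b y z M Q H0 s g (fun h => hH0 h s hs) (hSp s hs) hMp hQ (hQs s hs)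
        rw [sum_congr rfl this, ← sum_filter, sum_const, nsmul_eq_mul, hcX, mul_comm]
      rw [h4]
      have h5 : (Vz z)⁻¹ * (m * Vm y z) = m * (Vz y)⁻¹ := by
        rw [hsplit, mul_inv]
        field_simp
      have h6 : |(Vz z)⁻¹ * cX g - m * (Vz y)⁻¹| ≤ δ * (m * (Vz y)⁻¹) := by
        rw [← h5, ← mul_sub, abs_mul, abs_of_pos (inv_pos.2 hVz)]
        calc (Vz z)⁻¹ * |cX g - m * Vm y z| ≤ (Vz z)⁻¹ * (δ * (m * Vm y z)) :=
              mul_le_mul_of_nonneg_left h2 (inv_pos.2 hVz).le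
          _ = δ * ((Vz z)⁻¹ * (m * Vm y z)) := by ring
      have h7 : δ * m * 1 ≤ δ * m * (Vz y)⁻¹ := mul_le_mul_of_nonneg_left hVy1 hδm.le
      have h8 : |T g - m * (Vz y)⁻¹| ≤ |T g - (Vz z)⁻¹ * cX g| + |(Vz z)⁻¹ * cX g - m * (Vz y)⁻¹| := abs_sub_le _ _ _
      linarith)
    rw [card_image_of_injective _ hinj] at h1
    exact le_of_mul_le_mul_right (h1.trans hR) hδm
  have c3 : (B3.card : ℝ) ≤ δ * G := by
    have h1 := pp_sumG x Y hY1 σ a b S (B3.image (fun g => H0 + M * g)) hS (by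
      intro h hh
      rw [mem_image] at hh
      obtain ⟨g, hg, rfl⟩ := hh
      exact hpos' g (mem_filter.1 hg).1) (by
      intro s hs h hh
      rw [mem_image] at hh
      obtain ⟨g, hg, rfl⟩ := hh
      exact hYb s hs _ (mem_Icc.1 (hrange g (mem_filter.1 hg).1)).2)
    rw [sum_image (fun u _ v _ huv => hinj huv)] at h1
    have h2 : ∑ _g ∈ B3, (δ * m) ≤ ∑ g ∈ B3, PP g := by
      apply sum_le_sum
      intro g hg
      exact (mem_filter.1 hg).2.le
    rw [sum_const, nsmul_eq_mul] at h2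
    have h3 : ∑ g ∈ B3, PP g ≤ (δ * G) * (δ * m) := by
      refine le_trans (le_of_eq ?_) (h1.trans hPP)
      apply sum_congr rfl
      intro g _
      rw [hPPd]
    exact le_of_mul_le_mul_right (h2.trans h3) hδm
  have c4 : (B4.card : ℝ) ≤ δ * G := by
    have h1 : B4 ⊆ Icc 1 ⌊δ * G⌋₊ := by
      intro g hg
      rw [hB4, mem_filter, mem_Icc] at hg
      rw [mem_Icc]
      exact ⟨hg.1.1, Nat.le_floor hg.2⟩
    have h2 := card_le_card h1
    rw [Nat.card_Icc, Nat.add_sub_cancel] at h2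
    calc (B4.card : ℝ) ≤ (⌊δ * G⌋₊ : ℝ) := by exact_mod_cast h2
      _ ≤ δ * G := Nat.floor_le (by positivity)
  have hsub : (Icc 1 G).filter (fun g => ¬ ((1 - 3 * δ) * (m * (Vz y)⁻¹) ≤
        ((S.filter (fun s => (vl σ a b s (H0 + M * g)).Prime)).card : ℝ) * Real.log Y ∧
      ((S.filter (fun s => (vl σ a b s (H0 + M * g)).Prime)).card : ℝ) * Real.log (δ * (M * G)) ≤
        (1 + 3 * δ) * (m * (Vz y)⁻¹))) ⊆ B1 ∪ (B2 ∪ (B3 ∪ B4)) := by
    intro g hg
    rw [mem_filter] at hg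
    obtain ⟨hg, hlt⟩ := hg
    by_contra hcon
    apply hlt
    rw [mem_union, mem_union, mem_union] at hcon
    push Not at hcon
    obtain ⟨n1, n2, n3, n4⟩ := hcon
    have q1 : |cX g - m * Vm y z| ≤ δ * (m * Vm y z) := by
      by_contra h
      push Not at h
      exact n1 (mem_filter.2 ⟨hg, h⟩)
    have q2 : |T g - m * (Vz y)⁻¹| ≤ 2 * δ * (m * (Vz y)⁻¹) := by
      by_contra h
      push Not at h
      exact n2 (mem_filter.2 ⟨hg, q1, h⟩)
    have q3 : PP g ≤ δ * m := by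
      by_contra h
      push Not at h
      exact n3 (mem_filter.2 ⟨hg, h⟩)
    have q6 : δ * G < g := by
      by_contra h
      push Not at h
      exact n4 (mem_filter.2 ⟨hg, h⟩)
    rw [abs_le] at q2
    have q5 : δ * m * 1 ≤ δ * m * (Vz y)⁻¹ := mul_le_mul_of_nonneg_left hVy1 hδm.le
    have hmV : 0 < m * (Vz y)⁻¹ := by positivity
    constructor
    · have q4 : T g ≤ ((S.filter (fun s => (vl σ a b s (H0 + M * g)).Prime)).card : ℝ) * Real.log Y + PP g := by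
        rw [hT, hPPd, card_eq_sum_ones, Nat.cast_sum, sum_mul, sum_filter, ← sum_add_distrib]
        apply sum_le_sum
        intro s hs
        by_cases hp : (vl σ a b s (H0 + M * g)).Prime
        · rw [if_pos hp, if_pos hp, ArithmeticFunction.vonMangoldt_apply_prime hp, Nat.cast_one, one_mul, add_zero]
          apply Real.log_le_log (by exact_mod_cast hp.pos)
          exact_mod_cast hYb s hs _ (mem_Icc.1 (hrange g hg)).2
        · rw [if_neg hp, if_neg hp, zero_add]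
      linarith
    · have q4 : ((S.filter (fun s => (vl σ a b s (H0 + M * g)).Prime)).card : ℝ) * Real.log (δ * (M * G)) ≤ T g := by
        rw [hT, card_eq_sum_ones, Nat.cast_sum, sum_mul, sum_filter]
        apply sum_le_sum
        intro s hs
        by_cases hp : (vl σ a b s (H0 + M * g)).Prime
        · rw [if_pos hp, ArithmeticFunction.vonMangoldt_apply_prime hp, Nat.cast_one, one_mul]
          have hg1' : 0 < g := (mem_Icc.1 hg).1
          have hGpos : 0 < G := hg1'.trans_le (mem_Icc.1 hg).2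
          apply Real.log_le_log (by positivity)
          have hMr : (1 : ℝ) ≤ M := by exact_mod_cast hM1
          have h1 : δ * (M * G) ≤ M * g := by
            calc δ * (M * G) = M * (δ * G) := by ring
              _ ≤ M * g := mul_le_mul_of_nonneg_left q6.le (by linarith)
          have h2 : (M * g : ℝ) ≤ ((vl σ a b s (H0 + M * g) : ℕ) : ℝ) := by
            have : M * g ≤ vl σ a b s (H0 + M * g) := by
              have := hposH g hg1' s hs
              omega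
            exact_mod_cast this
          exact h1.trans h2
        · rw [if_neg hp]
          exact ArithmeticFunction.vonMangoldt_nonneg
      nlinarith
  have h1 := card_le_card hsub
  have h2 : (B1 ∪ (B2 ∪ (B3 ∪ B4))).card ≤ B1.card + (B2.card + (B3.card + B4.card)) :=
    (card_union_le _ _).trans (Nat.add_le_add_left ((card_union_le _ _).trans (Nat.add_le_add_left (card_union_le _ _) _)) _)
  have h3 : (((Icc 1 G).filter (fun g => ¬ ((1 - 3 * δ) * (m * (Vz y)⁻¹) ≤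
        ((S.filter (fun s => (vl σ a b s (H0 + M * g)).Prime)).card : ℝ) * Real.log Y ∧
      ((S.filter (fun s => (vl σ a b s (H0 + M * g)).Prime)).card : ℝ) * Real.log (δ * (M * G)) ≤
        (1 + 3 * δ) * (m * (Vz y)⁻¹)))).card : ℝ) ≤ B1.card + (B2.card + (B3.card + B4.card)) := by
    exact_mod_cast h1.trans h2
  linarith

end Pool.Agent.U918.SG
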